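import Pool.Agent.TH766.MC.Main

/-!
# Nonvanishing and the Kodaira dimension for log canonical pairs on covers of arrangements

Let `ℓ i = 0` be `q` hyperplanes in projective `n`-space, an arbitrary arrangement (any number of
hyperplanes, in any position) with exactly `c` irreducible components (`Splits`: `c` is the largest
number of groups into which the variables can be divided, in suitable linear coordinates, such that
every `ℓ i` is a form in the variables of one group). Let `X` be an abelian cover of projective space
branched along the arrangement (`Cover`), `U` an arbitrary set of the hyperplanes, and consider the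
log canonical pair `(Y, D)`, where `Y` is a projective manifold birational to `X` and the reduced
divisor `D` with normal crossings is the preimage of the hyperplanes in `U` (the boundary of a
compactification of a resolution of `X° = X \ ⋃ {ℓ i = 0, i ∈ U}`). The multiplicative group is
assumed to act freely on the coordinates of the points of `X°` (`FreeU`), and the multiplicities of
the cover over the remaining hyperplanes are at least `n + 4 - c` (`MultU`), or at least `n + 2` if
`c = 1` and there are at least `n + 3` different hyperplanes. Then (`result`):

* either the arrangement has a free part (it is a join of two arrangements such that all hyperplanes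
  of `U` come from the second one), and `K_Y + D` is not pseudo-effective: `κ = ν = -∞`;
* or `c ≤ n + 1`, `K_Y + D` is pseudo-effective, and `κ (Y, K_Y + D) = n + 1 - c` exactly.

In particular `K_Y + D` is pseudo-effective if and only if `κ ≥ 0` (nonvanishing), and for `c = 1` the
bundle `K_Y + D` is big, so that `κ = ν = n`. All values `0, ..., n` of `κ` occur.
-/

set_option autoImplicit false

open FF Pool.Agent.W602.Cov Pool.Agent.W602.Cov.Cover Pool.Agent.W602.GT Pool.Agent.TH766.MC

namespace Pool.Agent.Results.MP_2c56d9_ag.ArrangementLogKodaira

/-- **The Kodaira dimension of `K_Y + D`.** Let `X` be an abelian cover of projective `n`-space branched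
along an arrangement with exactly `c` irreducible components, `U` any set of the hyperplanes, and
let the multiplicities of the cover over the complement of the hyperplanes in `U` be at least
`n + 4 - c`, or at least `n + 2` if `c = 1` and there are `n + 3` different hyperplanes. Then
either the arrangement has a free part and the logarithmic canonical bundle of
`X \ ⋃ {ℓ i = 0, i ∈ U}` (the places in `OffD X.ℓ U x` are those without centre on it) is not
pseudo-effective, or it has no free part, the bundle is pseudo-effective, and its Kodaira dimension
is exactly `n + 1 - c`. -/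
theorem result (n q r : ℕ) (hn : 1 ≤ n) (X : Cover n q r) (U : Finset (Fin q)) (hF : X.FreeU U)
    (c R : ℕ) (hc : Splits X.ℓ c) (hc' : ¬ Splits X.ℓ (c + 1))
    (hR : R + c = n + 3 ∨ (c = 1 ∧ Many X.ℓ ∧ R = n + 1)) (hm : MultU X U (R + 1))
    (K : Type) [Field K] [Algebra ℂ K] (x : Fin (n + 1) → K) (y : Fin r → K)
    (hK : X.FunctionField K x y) :
    (FreePart X.ℓ U ∧ ¬ Psef ℂ K n (OffD X.ℓ U x)) ∨
      (¬ FreePart X.ℓ U ∧ Psef ℂ K n (OffD X.ℓ U x) ∧ ∃ h, h + c = n + 1 ∧
        KodGe ℂ K n (OffD X.ℓ U x) h ∧ ¬ KodGe ℂ K n (OffD X.ℓ U x) (h + 1)) := by
  by_cases hfp : FreePart X.ℓ U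
  · exact Or.inl ⟨hfp, not_psef_of_freePart X (prim_of_freeU X hF) hK hfp⟩
  · have h1 := (splits_le hc).2
    obtain ⟨h2, h3⟩ := kod_eq hn X hF hK hc hc' hR hm hfp (h := n + 1 - c) (by omega)
    exact Or.inr ⟨hfp, psef_of_kodGe h2.zero, n + 1 - c, by omega, h2, h3⟩

end Pool.Agent.Results.MP_2c56d9_ag.ArrangementLogKodaira
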