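import Pool.Agent.TH756.PN.FinB

/-!
# Weak abundance for log canonical pairs on covers of products of projective spaces

For `i < r` let `ℓ i k = 0`, `k < q i`, be hyperplanes in projective `n i`-space, an arbitrary
arrangement which is not reducible (general position is not assumed), let `N` be the sum of the
numbers `n i`, let `X` be an abelian cover of the product of the projective spaces which is branched
over the hyperplanes, and let `U` be an arbitrary set of the hyperplanes. Consider the log canonical
pair `(Y, D)`, where `Y` is a projective manifold birational to `X` and the reduced divisor `D` with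
normal crossings is the preimage of the hyperplanes in `U`. If the multiplicities of the cover
outside the hyperplanes in `U` are at least `n i + 2`, then `κ = ν` for `K_Y + D`, and the common
value is the sum of the numbers `n i` over the factors which are not of Calabi-Yau type.

The function-field language of the starting repository is used: prime divisors over `X` are the
divisorial places `P` of the function field `K` of `X` (`Divisorial`), `P.ord` is the order along
`P`, and `Over U ℓ x` is the set of the places which lie over the hyperplanes in `U`, the components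
of `D`. `KodGe ℂ K N (Over U ℓ x) h` says that `κ (K_Y + D) ≥ h`, `NumLe ℂ K N (Over U ℓ x) h` that
`ν (K_Y + D) ≤ h`: for every divisor `A` (generated by a finite set of functions) there is a constant
`C` with `h⁰ (m (K_Y + D) + A) ≤ C m ^ h` for all `m ≥ 1`. `Cover`, `Cover.Free`,
`Cover.FunctionField` and `Reducible` are in `Pool/Agent/W602/Cov`.
-/

set_option autoImplicit false

open FF Pool.Agent.W602.Cov Pool.Agent.W602.GT

namespace Pool.Agent.Results.MP_2c56d9_ag.OpenProductAbundance

variable {r N Q R : ℕ} {n q : Fin r → ℕ}

/-- A linear form on the `i`-th factor as a linear form on projective `N`-space, which has the same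
affine coordinates as the product of the projective `n i`-spaces; the number of the `j`-th affine
coordinate of the `i`-th factor is `e ⟨i, j⟩`. -/
noncomputable def onFactor (e : ((i : Fin r) × Fin (n i)) ≃ Fin N) (i : Fin r)
    (φ : Form (n i)) : Form N :=
  φ ∘ₗ LinearMap.funLeft ℂ ℂ (Fin.cases 0 fun j => (e ⟨i, j⟩).succ)

/-- `X` is an abelian cover `y j ^ m j = ∏ i, ∏ k, ℓ i k (x i) ^ e' j i k` of the product of the
projective spaces: the hyperplane at infinity of the `i`-th factor is one of the `ℓ i k`, and the
degree of the equations in the coordinates `x i` of the `i`-th factor is divisible by `m j`. In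
affine coordinates this is a cover of the affine part of projective `N`-space, and it is written in
this way. -/
structure CoverOfProduct (X : Cover N Q R) (e : ((i : Fin r) × Fin (n i)) ≃ Fin N)
    (e' : ((i : Fin r) × Fin (q i)) ≃ Fin Q) (ℓ : ∀ i, Fin (q i) → Form (n i)) : Prop where
  forms : ∀ i k, X.ℓ (e' ⟨i, k⟩) = onFactor e i (ℓ i k)
  infinity : ∀ i, ∃ (k : Fin (q i)) (c : ℂ), ℓ i k = c • LinearMap.proj 0
  degrees : ∀ j i, X.m j ∣ ∑ k, X.e j (e' ⟨i, k⟩)

/-- The coordinates of the map to the `i`-th factor. -/
def coordinates {K : Type} (e : ((i : Fin r) × Fin (n i)) ≃ Fin N) (z : Fin (N + 1) → K)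
    (i : Fin r) (j : Fin (n i + 1)) : K :=
  z ((Fin.cases 0 fun j => (e ⟨i, j⟩).succ : Fin (n i + 1) → Fin (N + 1)) j)

/-- The value of a linear form at a vector over `K`. -/
noncomputable def form {n : ℕ} {K : Type} [Field K] [Algebra ℂ K] (φ : Form n)
    (x : Fin (n + 1) → K) : K := ∑ j, algebraMap ℂ K (φ (Pi.single j 1)) * x j

/-- The place `P` lies over one of the hyperplanes in `U`: the order of this linear form is greater
than the order of some other linear form on the same factor. -/
def Over (U : ∀ i, Fin (q i) → Prop) (ℓ : ∀ i, Fin (q i) → Form (n i)) {K : Type} [Field K]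
    [Algebra ℂ K] (x : ∀ i, Fin (n i + 1) → K) (P : Place ℂ K) : Prop :=
  ∃ i k, U i k ∧ ∃ φ : Form (n i), form φ (x i) ≠ 0 ∧
    P.ord (form φ (x i)) < P.ord (form (ℓ i k) (x i))

/-- The multiplicities of the cover `X` outside the hyperplanes in `U` are at least `n i + 2`:
whenever a germ of a curve in the product of the projective spaces meets the hyperplanes `ℓ i k = 0`
with multiplicities `v i k`, not all `0` but `0` for the hyperplanes in `U`, and these
multiplicities are compatible with the equations of `X`, at least one of the numbers `v i k` is at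
least `n i + 2`. -/
def Multiplicities (X : Cover N Q R) (e' : ((i : Fin r) × Fin (q i)) ≃ Fin Q)
    (ℓ : ∀ i, Fin (q i) → Form (n i)) (U : ∀ i, Fin (q i) → Prop) : Prop :=
  ∀ v : ∀ i, Fin (q i) → ℕ, (∃ i, v i ≠ 0) →
    (∀ i, ∃ x : Fin (n i + 1) → ℂ, x ≠ 0 ∧ ∀ k, v i k ≠ 0 → ℓ i k x = 0) →
    (∀ j, X.m j ∣ ∑ i, ∑ k, X.e j (e' ⟨i, k⟩) * v i k) → (∀ i k, U i k → v i k = 0) →
    ∃ i k, n i + 2 ≤ v i k

/-- The arrangement consists of the `n + 2` hyperplanes `ℓ (c j) = 0`, which are in general
position: each `n + 1` of the forms are linearly independent. Hyperplanes may be listed several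
times. -/
def GeneralPosition {n q : ℕ} (ℓ : Fin q → Form n) (c : Fin (n + 2) → Fin q) : Prop :=
  (∀ j : Fin (n + 2), LinearIndependent ℂ fun a => ℓ (c (j.succAbove a))) ∧
    ∀ i, ∃ (j : Fin (n + 2)) (t : ℂ), ℓ i = t • ℓ (c j)

open scoped Classical in
/-- The `i`-th factor is of Calabi-Yau type: none of its hyperplanes is in `U`, the arrangement
consists of `n i + 2` hyperplanes in general position, and for each of them the multiplicities
`n i + 2` for this hyperplane and `0` for all others are compatible with the equations of `X`. -/
def CalabiYau (X : Cover N Q R) (e' : ((i : Fin r) × Fin (q i)) ≃ Fin Q)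
    (ℓ : ∀ i, Fin (q i) → Form (n i)) (U : ∀ i, Fin (q i) → Prop) (i : Fin r) : Prop :=
  (∃ c : Fin (n i + 2) → Fin (q i), GeneralPosition (ℓ i) c ∧
    ∀ j k, X.m k ∣ ∑ l, X.e k (e' ⟨i, l⟩) *
      (if ∃ t : ℂ, ℓ i l = t • ℓ i (c j) then n i + 2 else 0)) ∧ ∀ k, ¬ U i k

open scoped Classical in
/-- Let `X` be an abelian cover of the product of projective spaces of dimensions `n i` over
arbitrary arrangements which are not reducible, with function field `K`, let `U` be an arbitrary set
of the hyperplanes, let the multiplicities of the cover outside `U` be at least `n i + 2`, and let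
`D` be the reduced preimage of the hyperplanes in `U` on a suitable projective manifold `Y`
birational to `X`. Then `κ (K_Y + D) ≥ h` and `ν (K_Y + D) ≤ h`, so that `κ = ν = h`, where `h` is the
sum of the `n i` over the factors which are not of Calabi-Yau type. -/
theorem result (r N Q R : ℕ) (n q : Fin r → ℕ) (hr : 1 ≤ r) (hn : ∀ i, 1 ≤ n i)
    (ℓ : ∀ i, Fin (q i) → Form (n i)) (hirr : ∀ i, ¬ Reducible (ℓ i)) (X : Cover N Q R)
    (e : ((i : Fin r) × Fin (n i)) ≃ Fin N) (e' : ((i : Fin r) × Fin (q i)) ≃ Fin Q)
    (hX : CoverOfProduct X e e' ℓ) (hF : X.Free) (U : ∀ i, Fin (q i) → Prop)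
    (hm : Multiplicities X e' ℓ U) (K : Type) [Field K] [Algebra ℂ K] (z : Fin (N + 1) → K)
    (y : Fin R → K) (hK : X.FunctionField K z y) :
    KodGe ℂ K N (Over U ℓ (coordinates e z)) (∑ i with ¬ CalabiYau X e' ℓ U i, n i) ∧
      Pool.Agent.W619.TW.NumLe ℂ K N (Over U ℓ (coordinates e z))
        (∑ i with ¬ CalabiYau X e' ℓ U i, n i) := by
  refine Pool.Agent.TH756.PN.abundancePB e e' hr hn X hF hK hX.forms hX.infinity hX.degrees hirr U
    hm (Finset.univ.filter fun i => ¬ CalabiYau X e' ℓ U i) fun i => ?_
  rw [Finset.mem_filter]
  exact ⟨fun h => h.2, fun h => ⟨Finset.mem_univ _, h⟩⟩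

end Pool.Agent.Results.MP_2c56d9_ag.OpenProductAbundance
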